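import Mathlib

open Finset Polynomial

namespace Pool.Agent.Results.MP_b125a4_nt.Fails

noncomputable def q : RatFunc ℚ := RatFunc.X

noncomputable def poch (a b : RatFunc ℚ) (k : ℕ) : RatFunc ℚ := ∏ j ∈ range k, (1 - a * b ^ j)

noncomputable def S (n : ℕ) : RatFunc ℚ :=
  ∑ k ∈ range ((n - 1) / 2 + 1), (∑ i ∈ range (4 * k + 1), q ^ i) *
    (poch q (q ^ 2) k / poch (q ^ 2) (q ^ 2) k) ^ 3 *
    q ^ ((k : ℤ) * ((n : ℤ) ^ 2 - 2 * n * k - n - 2) / 4)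

def Cg (A : RatFunc ℚ) (P : ℚ[X]) : Prop :=
  ∃ U V : ℚ[X], IsCoprime V P ∧ P ∣ U ∧
    A = algebraMap ℚ[X] (RatFunc ℚ) U / algebraMap ℚ[X] (RatFunc ℚ) V

theorem result : ¬ ∀ n : ℕ, 1 ≤ n → n % 4 = 1 → Cg (S n) (cyclotomic n ℚ ^ 2) := by
  intro h
  obtain ⟨U, V, hc, hU, hA⟩ := h 1 le_rfl rfl
  have h1 : S 1 = 1 := by simp [S, poch]
  rw [h1] at hA
  have hV : algebraMap ℚ[X] (RatFunc ℚ) V ≠ 0 := by
    intro h0
    rw [h0, div_zero] at hA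
    exact one_ne_zero hA
  have hUV : V = U := by
    apply IsFractionRing.injective ℚ[X] (RatFunc ℚ)
    rw [eq_div_iff hV, one_mul] at hA
    exact hA
  rw [← hUV] at hU
  have hu := hc.isUnit_of_dvd' hU dvd_rfl
  have := natDegree_eq_zero_of_isUnit hu
  rw [natDegree_pow, natDegree_cyclotomic] at this
  simp at this

end Pool.Agent.Results.MP_b125a4_nt.Fails
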